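import Mathlib

/-!
# Central extensions of `ℤ² ≀ ℤ` by cyclic groups

The group `PE m` consists of the quadruples `(f, g, c, n)`, `f` and `g` Laurent polynomials over
`ℤ`, `c` in `ℤ/m`, `n` in `ℤ`; the elements `(f, g, c, 0)` form a Heisenberg group for the pairing
`(f, g) ↦` constant coefficient of `f(T) g(T⁻¹)` modulo `m`, and `(0, 0, 0, 1)` acts by
multiplication by `T`.
-/

set_option autoImplicit false

open LaurentPolynomial

namespace Pool.Agent.Y26.HT

/-- the ring of Laurent polynomials -/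
abbrev LR : Type := ℤ[T;T⁻¹]

/-- the substitution `T ↦ T⁻¹` -/
noncomputable def iv : LR ≃ₐ[ℤ] LR := LaurentPolynomial.invert

theorem iv_T (n : ℤ) : iv (T n) = T (-n) := LaurentPolynomial.invert_T n

theorem T_T (n : ℤ) : (T n : LR) * T (-n) = 1 := by
  rw [← T_add, add_neg_cancel, T_zero]

/-- the constant coefficient modulo `m` -/
def be (m : ℕ) (h : LR) : ZMod m := ((h.coeff 0 : ℤ) : ZMod m)

theorem be_add (m : ℕ) (h k : LR) : be m (h + k) = be m h + be m k := by
  unfold be
  rw [AddMonoidAlgebra.coeff_add, Finsupp.add_apply, Int.cast_add]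

theorem be_zero (m : ℕ) : be m 0 = 0 := by
  unfold be; simp

theorem be_neg (m : ℕ) (h : LR) : be m (-h) = -be m h := by
  have := be_add m h (-h)
  rw [add_neg_cancel, be_zero] at this
  exact (neg_eq_of_add_eq_zero_right this.symm).symm

theorem be_T (m : ℕ) (i : ℤ) : be m (T i) = if i = 0 then 1 else 0 := by
  unfold be
  rw [T_apply]
  split_ifs <;> simp

/-- the central extension -/
@[ext]
structure PE (m : ℕ) where
  f : LR
  g : LR
  c : ZMod m
  n : ℤ

variable {m : ℕ}

noncomputable instance : Mul (PE m) :=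
  ⟨fun p q => ⟨p.f + T p.n * q.f, p.g + T p.n * q.g,
    p.c + q.c + be m (p.f * iv (T p.n * q.g)), p.n + q.n⟩⟩

noncomputable instance : One (PE m) := ⟨⟨0, 0, 0, 0⟩⟩

noncomputable instance : Inv (PE m) :=
  ⟨fun p => ⟨-(T (-p.n) * p.f), -(T (-p.n) * p.g), -p.c + be m (p.f * iv p.g), -p.n⟩⟩

theorem mul_def (p q : PE m) : p * q = ⟨p.f + T p.n * q.f, p.g + T p.n * q.g,
    p.c + q.c + be m (p.f * iv (T p.n * q.g)), p.n + q.n⟩ := rfl

theorem one_def : (1 : PE m) = ⟨0, 0, 0, 0⟩ := rfl

theorem inv_def (p : PE m) : p⁻¹ =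
    ⟨-(T (-p.n) * p.f), -(T (-p.n) * p.g), -p.c + be m (p.f * iv p.g), -p.n⟩ := rfl

noncomputable instance : Group (PE m) := Group.ofLeftAxioms
  (by
    intro p q r
    simp only [mul_def]
    refine PE.ext ?_ ?_ ?_ ?_
    · show p.f + T p.n * q.f + T (p.n + q.n) * r.f = p.f + T p.n * (q.f + T q.n * r.f)
      rw [T_add]; ring
    · show p.g + T p.n * q.g + T (p.n + q.n) * r.g = p.g + T p.n * (q.g + T q.n * r.g)
      rw [T_add]; ring
    · show p.c + q.c + be m (p.f * iv (T p.n * q.g)) + r.c +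
          be m ((p.f + T p.n * q.f) * iv (T (p.n + q.n) * r.g)) =
        p.c + (q.c + r.c + be m (q.f * iv (T q.n * r.g))) +
          be m (p.f * iv (T p.n * (q.g + T q.n * r.g)))
      have e1 : (p.f + T p.n * q.f) * iv (T (p.n + q.n) * r.g) =
          p.f * iv (T p.n * (T q.n * r.g)) + q.f * iv (T q.n * r.g) := by
        simp only [T_add, map_mul, iv_T]
        linear_combination (q.f * T (-q.n) * iv r.g) * T_T p.n
      have e2 : p.f * iv (T p.n * (q.g + T q.n * r.g)) =
          p.f * iv (T p.n * q.g) + p.f * iv (T p.n * (T q.n * r.g)) := by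
        rw [mul_add, map_add]; ring
      rw [e1, e2, be_add, be_add]
      ring
    · show p.n + q.n + r.n = p.n + (q.n + r.n)
      ring)
  (by
    intro p
    rw [mul_def, one_def]
    refine PE.ext ?_ ?_ ?_ ?_
    · show 0 + T 0 * p.f = p.f
      rw [T_zero]; ring
    · show 0 + T 0 * p.g = p.g
      rw [T_zero]; ring
    · show 0 + p.c + be m (0 * iv (T 0 * p.g)) = p.c
      rw [zero_mul, be_zero]; ring
    · show 0 + p.n = p.n
      ring)
  (by
    intro p
    rw [mul_def, one_def, inv_def]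
    refine PE.ext ?_ ?_ ?_ ?_
    · show -(T (-p.n) * p.f) + T (-p.n) * p.f = 0
      ring
    · show -(T (-p.n) * p.g) + T (-p.n) * p.g = 0
      ring
    · show -p.c + be m (p.f * iv p.g) + p.c + be m (-(T (-p.n) * p.f) * iv (T (-p.n) * p.g)) = 0
      have e1 : -(T (-p.n) * p.f) * iv (T (-p.n) * p.g) = -(p.f * iv p.g) := by
        rw [map_mul, iv_T, neg_neg]
        linear_combination -(p.f * iv p.g) * T_T p.n
      rw [e1, be_neg]
      ring
    · show -p.n + p.n = 0
      ring)

/-- the elements of the Heisenberg group -/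
noncomputable def xE (m : ℕ) (f : LR) : PE m := ⟨f, 0, 0, 0⟩
noncomputable def yE (m : ℕ) (g : LR) : PE m := ⟨0, g, 0, 0⟩
noncomputable def zE (m : ℕ) (c : ZMod m) : PE m := ⟨0, 0, c, 0⟩
noncomputable def tE (m : ℕ) (n : ℤ) : PE m := ⟨0, 0, 0, n⟩

theorem xE_add (f f' : LR) : xE m (f + f') = xE m f * xE m f' := by
  rw [mul_def]
  refine PE.ext ?_ ?_ ?_ ?_ <;> simp [xE, be_zero]

theorem yE_add (g g' : LR) : yE m (g + g') = yE m g * yE m g' := by
  rw [mul_def]
  refine PE.ext ?_ ?_ ?_ ?_ <;> simp [yE, be_zero]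

theorem zE_add (c c' : ZMod m) : zE m (c + c') = zE m c * zE m c' := by
  rw [mul_def]
  refine PE.ext ?_ ?_ ?_ ?_ <;> simp [zE, be_zero]

theorem tE_add (n n' : ℤ) : tE m (n + n') = tE m n * tE m n' := by
  rw [mul_def]
  refine PE.ext ?_ ?_ ?_ ?_ <;> simp [tE, be_zero]

theorem zE_central (c : ZMod m) (p : PE m) : p * zE m c = zE m c * p := by
  rw [mul_def, mul_def]
  refine PE.ext ?_ ?_ ?_ ?_ <;> simp [zE, be_zero, add_comm]

/-- conjugation by `t` -/
theorem conj_x (n : ℤ) (f : LR) : tE m n * xE m f = xE m (T n * f) * tE m n := by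
  rw [mul_def, mul_def]
  refine PE.ext ?_ ?_ ?_ ?_ <;> simp [tE, xE, be_zero]

theorem conj_y (n : ℤ) (g : LR) : tE m n * yE m g = yE m (T n * g) * tE m n := by
  rw [mul_def, mul_def]
  refine PE.ext ?_ ?_ ?_ ?_ <;> simp [tE, yE, be_zero]

theorem xy (f g : LR) : xE m f * yE m g = zE m (be m (f * iv g)) * (yE m g * xE m f) := by
  rw [mul_def, mul_def, mul_def]
  refine PE.ext ?_ ?_ ?_ ?_ <;> simp [xE, yE, zE, be_zero]

theorem decomp (p : PE m) : p = yE m p.g * xE m p.f * zE m p.c * tE m p.n := by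
  rw [mul_def, mul_def, mul_def]
  refine PE.ext ?_ ?_ ?_ ?_ <;> simp [xE, yE, zE, tE, be_zero]

theorem tE_zero : tE m 0 = 1 := rfl

theorem zE_zero : zE m 0 = 1 := rfl

theorem xE_neg (f : LR) : xE m (-f) = (xE m f)⁻¹ := by
  rw [eq_inv_iff_mul_eq_one, ← xE_add, neg_add_cancel]
  rfl

theorem yE_neg (f : LR) : yE m (-f) = (yE m f)⁻¹ := by
  rw [eq_inv_iff_mul_eq_one, ← yE_add, neg_add_cancel]
  rfl

theorem zE_neg (c : ZMod m) : zE m (-c) = (zE m c)⁻¹ := by
  rw [eq_inv_iff_mul_eq_one, ← zE_add, neg_add_cancel]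
  rfl

theorem tE_neg (n : ℤ) : tE m (-n) = (tE m n)⁻¹ := by
  rw [eq_inv_iff_mul_eq_one, ← tE_add, neg_add_cancel]
  rfl

/-- a subgroup which contains `zE 1` contains all `zE c` -/
theorem zE_mem {K : Subgroup (PE m)} (h : zE m 1 ∈ K) (c : ZMod m) : zE m c ∈ K := by
  let A : AddSubgroup (ZMod m) :=
    { carrier := {c | zE m c ∈ K}
      add_mem' := fun {a b} ha hb => by
        show zE m (a + b) ∈ K
        rw [zE_add]; exact K.mul_mem ha hb
      zero_mem' := K.one_mem
      neg_mem' := fun {a} ha => by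
        show zE m (-a) ∈ K
        rw [zE_neg]; exact K.inv_mem ha }
  have h1 : (1 : ZMod m) ∈ A := h
  obtain ⟨k, rfl⟩ := ZMod.intCast_surjective c
  have h2 := A.zsmul_mem h1 k
  rw [zsmul_one] at h2
  exact h2

theorem commutator (f g : LR) :
    xE m f * (yE m g * (xE m f)⁻¹ * (yE m g)⁻¹) = zE m (be m (f * iv g)) := by
  have h := xy (m := m) f g
  have e : xE m f * (yE m g * (xE m f)⁻¹ * (yE m g)⁻¹) =
      (xE m f * yE m g) * (xE m f)⁻¹ * (yE m g)⁻¹ := by group
  rw [e, h]
  group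

/-- three generators -/
theorem gens : Subgroup.closure ({xE m 1, yE m 1, tE m 1} : Set (PE m)) = ⊤ := by
  set K := Subgroup.closure ({xE m 1, yE m 1, tE m 1} : Set (PE m)) with hK
  have hx : xE m 1 ∈ K := Subgroup.subset_closure (by simp)
  have hy : yE m 1 ∈ K := Subgroup.subset_closure (by simp)
  have ht : tE m 1 ∈ K := Subgroup.subset_closure (by simp)
  have htn : ∀ n : ℤ, tE m n ∈ K := by
    let A : AddSubgroup ℤ :=
      { carrier := {n | tE m n ∈ K}
        add_mem' := fun {a b} ha hb => by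
          show tE m (a + b) ∈ K
          rw [tE_add]; exact K.mul_mem ha hb
        zero_mem' := K.one_mem
        neg_mem' := fun {a} ha => by
          show tE m (-a) ∈ K
          rw [tE_neg]; exact K.inv_mem ha }
    intro n
    have h1 : (1 : ℤ) ∈ A := ht
    have h2 := A.zsmul_mem h1 n
    rw [smul_eq_mul, mul_one] at h2
    exact h2
  have hCT : ∀ (A : AddSubgroup LR), (∀ n, (T n : LR) ∈ A) → ∀ f, f ∈ A := by
    intro A hA f
    refine LaurentPolynomial.induction_on' f (fun p q hp hq => A.add_mem hp hq) fun n a => ?_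
    have : (C a * T n : LR) = a • (T n : LR) := by
      rw [zsmul_eq_mul, eq_intCast (C : ℤ →+* LR) a]
    rw [this]
    exact A.zsmul_mem (hA n) a
  have hxf : ∀ f : LR, xE m f ∈ K := by
    let A : AddSubgroup LR :=
      { carrier := {n | xE m n ∈ K}
        add_mem' := fun {a b} ha hb => by
          show xE m (a + b) ∈ K
          rw [xE_add]; exact K.mul_mem ha hb
        zero_mem' := K.one_mem
        neg_mem' := fun {a} ha => by
          show xE m (-a) ∈ K
          rw [xE_neg]; exact K.inv_mem ha }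
    refine hCT A fun n => ?_
    show xE m (T n) ∈ K
    have h := conj_x (m := m) n 1
    rw [mul_one, ← mul_inv_eq_iff_eq_mul] at h
    rw [← h]
    exact K.mul_mem (K.mul_mem (htn n) hx) (K.inv_mem (htn n))
  have hyf : ∀ f : LR, yE m f ∈ K := by
    let A : AddSubgroup LR :=
      { carrier := {n | yE m n ∈ K}
        add_mem' := fun {a b} ha hb => by
          show yE m (a + b) ∈ K
          rw [yE_add]; exact K.mul_mem ha hb
        zero_mem' := K.one_mem
        neg_mem' := fun {a} ha => by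
          show yE m (-a) ∈ K
          rw [yE_neg]; exact K.inv_mem ha }
    refine hCT A fun n => ?_
    show yE m (T n) ∈ K
    have h := conj_y (m := m) n 1
    rw [mul_one, ← mul_inv_eq_iff_eq_mul] at h
    rw [← h]
    exact K.mul_mem (K.mul_mem (htn n) hy) (K.inv_mem (htn n))
  have hz : zE m 1 ∈ K := by
    have h := commutator (m := m) 1 1
    rw [map_one, mul_one, ← T_zero, be_T, if_pos rfl] at h
    rw [← h]
    exact K.mul_mem (hxf _) (K.mul_mem (K.mul_mem (hyf _) (K.inv_mem (hxf _)))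
      (K.inv_mem (hyf _)))
  rw [eq_top_iff]
  intro p _
  rw [decomp p]
  exact K.mul_mem (K.mul_mem (K.mul_mem (hyf _) (hxf _)) (zE_mem hz _)) (htn _)

/-- the projection to `PE 1` -/
noncomputable def ph (m : ℕ) : PE m →* PE 1 where
  toFun p := ⟨p.f, p.g, 0, p.n⟩
  map_one' := rfl
  map_mul' p q := by
    rw [mul_def, mul_def]
    exact PE.ext rfl rfl (Subsingleton.elim _ _) rfl

theorem ph_surj (m : ℕ) : Function.Surjective (ph m) := fun p =>
  ⟨⟨p.f, p.g, 0, p.n⟩, PE.ext rfl rfl (Subsingleton.elim _ _) rfl⟩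

theorem ph_one (p : PE 1) : ph 1 p = p := PE.ext rfl rfl (Subsingleton.elim _ _) rfl

/-- the central subgroup -/
noncomputable def ZE (m : ℕ) : Subgroup (PE m) := (ph m).ker

instance (m : ℕ) : (ZE m).Normal := inferInstanceAs ((ph m).ker).Normal

theorem mem_ZE {p : PE m} : p ∈ ZE m ↔ ∃ c, p = zE m c := by
  constructor
  · intro h
    have h1 : ph m p = 1 := h
    refine ⟨p.c, PE.ext ?_ ?_ rfl ?_⟩
    · have h2 : (ph m p).f = (1 : PE 1).f := congrArg PE.f h1
      exact h2
    · have h2 : (ph m p).g = (1 : PE 1).g := congrArg PE.g h1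
      exact h2
    · have h2 : (ph m p).n = (1 : PE 1).n := congrArg PE.n h1
      exact h2
  · rintro ⟨c, rfl⟩
    exact PE.ext rfl rfl (Subsingleton.elim _ _) rfl

theorem ZE_le (m : ℕ) : ZE m ≤ Subgroup.center (PE m) := by
  intro p hp
  obtain ⟨c, rfl⟩ := mem_ZE.1 hp
  exact Subgroup.mem_center_iff.2 (zE_central c)

/-- the central subgroup is `ℤ/m` -/
noncomputable def zHom (m : ℕ) : Multiplicative (ZMod m) →* PE m where
  toFun c := zE m c.toAdd
  map_one' := rfl
  map_mul' _ _ := zE_add _ _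

theorem zHom_range (m : ℕ) : (zHom m).range = ZE m := by
  ext p
  rw [mem_ZE]
  constructor
  · rintro ⟨c, rfl⟩
    exact ⟨c.toAdd, rfl⟩
  · rintro ⟨c, rfl⟩
    exact ⟨Multiplicative.ofAdd c, rfl⟩

theorem zHom_inj (m : ℕ) : Function.Injective (zHom m) := fun _ _ h =>
  congrArg PE.c h

theorem infinite_PE (m : ℕ) : Infinite (PE m) :=
  Infinite.of_injective (tE m) fun _ _ h => congrArg PE.n h

end Pool.Agent.Y26.HT
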