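import Pool.Agent.Y26.HT.Main

/-!
# The highly transitive quotient does not depend on the extension
-/

set_option autoImplicit false

open LaurentPolynomial Equiv MulAction Pool.Agent.H602R3.HT

namespace Pool.Agent.Y26.HT

universe u v

noncomputable section

theorem FS_congr {α β : Type u} [DecidableEq α] [DecidableEq β] (e : α ≃ β) {x : Perm α}
    (hx : x ∈ FS α) : e.permCongrHom x ∈ FS β := by
  induction hx using Subgroup.closure_induction with
  | mem x hx =>
    obtain ⟨a, b, hab, rfl⟩ := hx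
    have h : e.permCongrHom (swap a b) = swap (e a) (e b) := by
      rw [Equiv.permCongrHom_coe, Equiv.permCongr_def]
      exact Equiv.symm_trans_swap_trans a b e
    rw [h]
    exact swap_mem_FS _ _
  | one => rw [map_one]; exact one_mem _
  | mul x y _ _ hx hy => rw [map_mul]; exact mul_mem hx hy
  | inv x _ hx => rw [map_inv]; exact inv_mem hx

/-- the bijection of the coset spaces -/
def eps (m : ℕ) : PE m ⧸ ZE m ≃ PE 1 ⧸ ZE 1 :=
  ((QuotientGroup.quotientKerEquivOfSurjective (ph m) (ph_surj m)).toEquiv).trans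
   ((QuotientGroup.quotientKerEquivOfSurjective (ph 1) (ph_surj 1)).toEquiv).symm

theorem eps_mk (m : ℕ) (p : PE m) :
    eps m (QuotientGroup.mk p) = QuotientGroup.mk (ph m p) := by
  refine (Equiv.symm_apply_eq
    (QuotientGroup.quotientKerEquivOfSurjective (ph 1) (ph_surj 1)).toEquiv).2 ?_
  show ph m p = ph 1 (ph m p)
  rw [ph_one]

theorem eps_smul (m : ℕ) (p : PE m) (x : PE m ⧸ ZE m) :
    eps m (p • x) = ph m p • eps m x := by
  obtain ⟨q, rfl⟩ := QuotientGroup.mk_surjective x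
  show eps m (QuotientGroup.mk (p * q)) = _
  rw [eps_mk, eps_mk, map_mul]
  rfl

theorem congr_toPerm (m : ℕ) (p : PE m) :
    (eps m).permCongrHom (toPermHom (PE m) (PE m ⧸ ZE m) p) =
      toPermHom (PE 1) (PE 1 ⧸ ZE 1) (ph m p) := by
  ext x : 1
  rw [Equiv.permCongrHom_coe, Equiv.permCongr_apply]
  show eps m (p • (eps m).symm x) = ph m p • x
  rw [eps_smul, Equiv.apply_symm_apply]

/-- the homomorphism to the permutations of the set of cosets of `ZE 1` -/
def qq (m : ℕ) : GE m →* Perm (PE 1 ⧸ ZE 1) :=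
  (eps m).permCongrHom.toMonoidHom.comp (pp (Z := ZE m))

theorem qq_mem (m : ℕ) (g : GE m) : qq m g ∈ (pp (Z := ZE 1)).range := by
  classical
  have h := mem_GG.1 g.2
  have h1 := FS_congr (eps m) h
  rw [map_mul, map_inv, congr_toPerm] at h1
  exact ⟨⟨((eps m).permCongrHom g.1.1, ph m g.1.2), mem_GG.2 h1⟩, rfl⟩

/-- the homomorphism to the highly transitive group -/
def piE (m : ℕ) : GE m →* HE 1 := (qq m).codRestrict _ (qq_mem m)

theorem piE_surj (m : ℕ) : Function.Surjective (piE m) := by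
  classical
  rintro ⟨_, ⟨g, rfl⟩⟩
  obtain ⟨p, hp⟩ := ph_surj m g.1.2
  have h := mem_GG.1 g.2
  rw [← hp, ← congr_toPerm] at h
  have h1 := FS_congr (eps m).symm h
  rw [map_mul, map_inv, ← Equiv.permCongrHom_symm, MulEquiv.symm_apply_apply] at h1
  refine ⟨⟨((eps m).permCongrHom.symm g.1.1, p), mem_GG.2 h1⟩, ?_⟩
  apply Subtype.ext
  exact (eps m).permCongrHom.apply_symm_apply g.1.1

theorem piE_ker (m : ℕ) : (piE m).ker = (cHom m).range := by
  ext g
  constructor
  · intro h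
    have h1 : (eps m).permCongrHom (pp (Z := ZE m) g) = 1 := congrArg Subtype.val h
    have h2 : g ∈ (pp (Z := ZE m)).ker := by
      rw [map_eq_one_iff _ (MulEquiv.injective _)] at h1
      exact h1
    obtain ⟨z, hz, rfl⟩ := ker_pp (infinite_quot m) (ZE_le m) h2
    obtain ⟨c, rfl⟩ := mem_ZE.1 hz
    exact ⟨Multiplicative.ofAdd c, rfl⟩
  · rintro ⟨c, rfl⟩
    apply Subtype.ext
    show (eps m).permCongrHom (toPermHom (PE m) (PE m ⧸ ZE m) (zE m c.toAdd)) = 1
    rw [congr_toPerm]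
    have : ph m (zE m c.toAdd) = 1 := mem_ZE.2 ⟨_, rfl⟩
    rw [this, map_one]

theorem card_cHom (m : ℕ) (_ : 1 ≤ m) : Nat.card (cHom m).range = m := by
  rw [← Nat.card_congr (MonoidHom.ofInjective (cHom_inj m)).toEquiv]
  rw [Nat.card_congr Multiplicative.toAdd, Nat.card_zmod]

theorem cyclic_cHom (m : ℕ) : IsCyclic (cHom m).range := by
  have : IsCyclic (Multiplicative (ZMod m)) := inferInstance
  exact isCyclic_of_surjective (cHom m).rangeRestrict (cHom m).rangeRestrict_surjective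

theorem cHom_central (m : ℕ) : (cHom m).range ≤ Subgroup.center (GE m) := by
  rintro _ ⟨c, rfl⟩
  exact Subgroup.mem_center_iff.2 fun g => ce_comm m _ g

theorem qi (m : ℕ) (hm : 1 ≤ m) : QuasiIsometric (GE m) (HE 1) := by
  obtain ⟨S, hS⟩ := GE_fg m
  refine quasiIsometric_of_surj (piE m) (piE_surj m) ?_ S hS
  rw [piE_ker]
  have : Finite (cHom m).range := Nat.finite_of_card_ne_zero (by rw [card_cHom m hm]; omega)
  exact Set.toFinite _

theorem comm_symm {G : Type u} {H : Type v} [Group G] [Group H] (h : Commensurable G H) :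
    Commensurable H G := by
  obtain ⟨A, B, hA, hB, ⟨e⟩⟩ := h
  exact ⟨B, A, hB, hA, ⟨e.symm⟩⟩

theorem dvd_of_comm {m n : ℕ} (hm : 1 ≤ m) (hn : 1 ≤ n) (h : Commensurable (GE m) (GE n)) :
    m ∣ n := by
  obtain ⟨C, -, -, hcard, K₁, hK₁, -, hC⟩ := comm_normal hm h
  have hle : C ≤ (cHom n).range := by
    intro c hc
    obtain ⟨d, hd⟩ := mem_of_comm n K₁ hK₁ c fun x hx => hC x hx c hc
    exact ⟨Multiplicative.ofAdd d, hd.symm⟩
  have h1 := Subgroup.card_dvd_of_le hle
  rwa [hcard, card_cHom n hn] at h1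

theorem eq_of_comm {m n : ℕ} (hm : 1 ≤ m) (hn : 1 ≤ n) (h : Commensurable (GE m) (GE n)) :
    m = n :=
  Nat.dvd_antisymm (dvd_of_comm hm hn h) (dvd_of_comm hn hm (comm_symm h))

/-- groups commensurable with the extensions -/
theorem comm_main {m : ℕ} (hm : 2 ≤ m) {K : Type u} [Group K] (hK : Commensurable (GE m) K) :
    (∃ C : Subgroup K, C.Normal ∧ IsCyclic C ∧ Nat.card C = m) ∧ ¬ HighlyTransitive K ∧
      ∀ (Ω : Type v) (_ : MulAction K Ω), FaithfulSMul K Ω →
        ¬ MulAction.IsQuasiPreprimitive K Ω := by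
  obtain ⟨C, hC, hcyc, hcard, K₁, hK₁, hinf, hcomm⟩ := comm_normal (by omega : 1 ≤ m) hK
  have hKinf : Infinite K := Infinite.of_injective (fun k : K₁ => (k : K)) Subtype.val_injective
  have hfin : Finite C := Nat.finite_of_card_ne_zero (by omega)
  have hnt : Nontrivial C := by
    rw [← Finite.one_lt_card_iff_nontrivial, hcard]
    omega
  obtain ⟨c, hc⟩ := exists_ne (1 : C)
  refine ⟨⟨C, hC, hcyc, hcard⟩, ?_, fun Ω _ hf => not_quasi hm hC hcard hKinf Ω⟩
  refine not_HT_of_center K₁ hK₁ (z := (c : K)) ?_ fun x hx => hcomm x hx c c.2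
  intro h
  exact hc (Subtype.ext h)

theorem HE_fg : Group.FG (HE 1) := by
  obtain ⟨S, hS⟩ := GE_fg 1
  have : Group.FG (GE 1) := ⟨⟨S, hS⟩⟩
  exact Group.fg_of_surjective (piE_surj 1)

/-- the theorem -/
theorem main : ∃ (H : Type) (_ : Group H) (G : ℕ → Type) (_ : ∀ m, Group (G m)),
    Group.FG H ∧ HighlyTransitive H ∧
    (∀ m, 2 ≤ m → Group.FG (G m) ∧ QuasiIsometric (G m) H ∧
      (∃ π : G m →* H, Function.Surjective π ∧ π.ker ≤ Subgroup.center (G m) ∧
        IsCyclic π.ker ∧ Nat.card π.ker = m) ∧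
      ∀ (K : Type u) (_ : Group K), Commensurable (G m) K →
        (∃ C : Subgroup K, C.Normal ∧ IsCyclic C ∧ Nat.card C = m) ∧ ¬ HighlyTransitive K ∧
        ∀ (Ω : Type v) (_ : MulAction K Ω), FaithfulSMul K Ω →
          ¬ MulAction.IsQuasiPreprimitive K Ω) ∧
    ∀ m n, 2 ≤ m → 2 ≤ n → Commensurable (G m) (G n) → m = n := by
  refine ⟨HE 1, inferInstance, fun m => GE m, fun m => inferInstance, HE_fg,
    HT_range (infinite_quot 1), ?_, ?_⟩
  · intro m hm
    obtain ⟨S, hS⟩ := GE_fg m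
    refine ⟨⟨⟨S, hS⟩⟩, qi m (by omega), ⟨piE m, piE_surj m, ?_, ?_, ?_⟩, ?_⟩
    · rw [piE_ker]; exact cHom_central m
    · rw [piE_ker]; exact cyclic_cHom m
    · rw [piE_ker]; exact card_cHom m (by omega)
    · intro K _ hK
      exact comm_main hm hK
  · intro m n hm hn h
    exact eq_of_comm (by omega) (by omega) h

end

end Pool.Agent.Y26.HT
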