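import Pool.Agent.H602R3.HTEx
import Pool.Agent.Y26.HT.Ext

/-!
# One highly transitive group and infinitely many central extensions
-/

set_option autoImplicit false

open LaurentPolynomial Equiv MulAction Pool.Agent.H602R3.HT

namespace Pool.Agent.Y26.HT

universe u v

noncomputable section

/-- the extensions -/
abbrev GE (m : ℕ) : Type := GG (ZE m)

/-- the highly transitive quotient -/
abbrev HE (m : ℕ) : Type := (pp (Z := ZE m)).range

theorem infinite_quot (m : ℕ) : Infinite (PE m ⧸ ZE m) := by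
  have := infinite_PE 1
  exact Infinite.of_injective
    (QuotientGroup.quotientKerEquivOfSurjective (ph m) (ph_surj m)).symm
    (MulEquiv.injective _)

theorem GE_fg (m : ℕ) : ∃ S : Finset (GE m), Subgroup.closure (S : Set (GE m)) = ⊤ := by
  classical
  refine GG_fg (Z := ZE m) {xE m 1, yE m 1, tE m 1} ?_
  rw [← gens (m := m)]
  congr 1
  simp

/-- the central elements of the extensions -/
def ce (m : ℕ) (c : ZMod m) : GE m := dd (Z := ZE m) (zE m c)

theorem ce_comm (m : ℕ) (c : ZMod m) (g : GE m) : g * ce m c = ce m c * g :=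
  dd_central (ZE_le m) (mem_ZE.2 ⟨c, rfl⟩) g

/-- every subgroup of finite index contains the central subgroup -/
theorem ce_mem (m : ℕ) (G₁ : Subgroup (GE m)) (h : G₁.FiniteIndex) (c : ZMod m) :
    ce m c ∈ G₁ := by
  have hN : G₁.normalCore.FiniteIndex := inferInstance
  have hfin : Finite (GE m ⧸ G₁.normalCore) := Subgroup.finite_quotient_of_finiteIndex
  obtain ⟨i, j, hij, heq⟩ := Finite.exists_ne_map_eq_of_infinite
    (fun i : ℤ => (QuotientGroup.mk (dd (Z := ZE m) (xE m (T i))) : GE m ⧸ G₁.normalCore))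
  have hm := QuotientGroup.eq.1 heq
  rw [← map_inv, ← map_mul, ← xE_neg, ← xE_add] at hm
  set w : PE m := xE m (-T i + T j) with hw
  let Y := dd (Z := ZE m) (yE m (T j))
  have hm2 : dd (Z := ZE m) w * (Y * (dd (Z := ZE m) w)⁻¹ * Y⁻¹) ∈ G₁.normalCore :=
    mul_mem hm ((inferInstance : G₁.normalCore.Normal).conj_mem _ (inv_mem hm) Y)
  have e : ce m 1 = dd (Z := ZE m) w * (Y * (dd (Z := ZE m) w)⁻¹ * Y⁻¹) := by
    simp only [ce, Y]
    rw [← map_inv, ← map_mul, ← map_inv, ← map_mul, ← map_mul, hw, commutator]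
    congr 2
    have h1 : (-T i + T j : LR) * iv (T j) = -T (i - j) + T 0 := by
      rw [iv_T, add_mul, neg_mul, ← T_add, ← T_add, add_neg_cancel, sub_eq_add_neg]
    rw [h1, be_add, be_neg, be_T, be_T, if_pos rfl, if_neg (sub_ne_zero.2 hij), neg_zero, zero_add]
  rw [← e] at hm2
  have h1 : zE m 1 ∈ (G₁.normalCore).comap (dd (Z := ZE m)) := hm2
  exact Subgroup.normalCore_le _ (zE_mem h1 c)

/-- elements commuting with a subgroup of finite index are central -/
theorem mem_of_comm (m : ℕ) (G₀ : Subgroup (GE m)) (h : G₀.FiniteIndex) (g : GE m)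
    (hg : ∀ x ∈ G₀, x * g = g * x) : ∃ c, g = ce m c := by
  have hinf := infinite_quot m
  have h1 : g ∈ (pp (Z := ZE m)).ker := by
    by_contra hne
    have hsurj := MonoidHom.rangeRestrict_surjective (pp (Z := ZE m))
    have hfi : (G₀.map (pp (Z := ZE m)).rangeRestrict).FiniteIndex := by
      refine ⟨fun h0 => h.index_ne_zero ?_⟩
      have := Subgroup.index_map_dvd G₀ hsurj
      rw [h0] at this
      exact Nat.eq_zero_of_zero_dvd this
    refine not_HT_of_center (G₀.map (pp (Z := ZE m)).rangeRestrict) hfi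
      (z := (pp (Z := ZE m)).rangeRestrict g) ?_ ?_ (HT_range hinf)
    · intro h2
      exact hne (congrArg Subtype.val h2)
    · rintro _ ⟨x, hx, rfl⟩
      rw [← map_mul, hg x hx, map_mul]
  obtain ⟨z, hz, rfl⟩ := ker_pp hinf (ZE_le m) h1
  obtain ⟨c, rfl⟩ := mem_ZE.1 hz
  exact ⟨c, rfl⟩

/-- the homomorphism from `ℤ/m` -/
def cHom (m : ℕ) : Multiplicative (ZMod m) →* GE m := (dd (Z := ZE m)).comp (zHom m)

theorem cHom_apply (m : ℕ) (c : Multiplicative (ZMod m)) : cHom m c = ce m c.toAdd := rfl

theorem cHom_inj (m : ℕ) : Function.Injective (cHom m) := fun a b h => by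
  have h1 : zHom m a = zHom m b := congrArg (fun g : GE m => g.1.2) h
  exact zHom_inj m h1

theorem infinite_GE (m : ℕ) : Infinite (GE m) := by
  have := infinite_PE m
  exact Infinite.of_injective (dd (Z := ZE m)) fun a b h => congrArg (fun g : GE m => g.1.2) h

/-- every group commensurable with the extension has a normal cyclic subgroup of order `m`, which
centralises a subgroup of finite index -/
theorem comm_normal {m : ℕ} (hm : 1 ≤ m) {K : Type u} [Group K] (hK : Commensurable (GE m) K) :
    ∃ C : Subgroup K, C.Normal ∧ IsCyclic C ∧ Nat.card C = m ∧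
      ∃ K₁ : Subgroup K, K₁.FiniteIndex ∧ Infinite K₁ ∧ ∀ k ∈ K₁, ∀ c ∈ C, k * c = c * k := by
  obtain ⟨G₁, K₁, hG₁, hK₁, ⟨e⟩⟩ := hK
  have : NeZero m := ⟨by omega⟩
  -- the homomorphism into `K`
  let c1 : Multiplicative (ZMod m) →* G₁ := (cHom m).codRestrict G₁ fun c => ce_mem m G₁ hG₁ _
  let c2 : Multiplicative (ZMod m) →* K := (K₁.subtype.comp e.toMonoidHom).comp c1
  have hc2 : ∀ c, c2 c = (e (c1 c) : K) := fun c => rfl
  have hinj : Function.Injective c2 := by
    intro a b h
    have h1 : e (c1 a) = e (c1 b) := Subtype.ext h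
    have h2 : c1 a = c1 b := e.injective h1
    exact cHom_inj m (congrArg Subtype.val h2)
  have hcent : ∀ k ∈ K₁, ∀ c ∈ c2.range, k * c = c * k := by
    rintro k hk _ ⟨c, rfl⟩
    obtain ⟨g, hg⟩ := e.surjective ⟨k, hk⟩
    have h1 : g * c1 c = c1 c * g := Subtype.ext (ce_comm m _ g.1)
    have h2 : e g * e (c1 c) = e (c1 c) * e g := by rw [← map_mul, h1, map_mul]
    rw [hg] at h2
    exact congrArg Subtype.val h2
  -- subgroups of finite index of `K₁`
  have hsub : ∀ K₀ : Subgroup K, K₀.FiniteIndex → K₀ ≤ K₁ →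
      ((K₀.comap (K₁.subtype.comp e.toMonoidHom)).map G₁.subtype).FiniteIndex := by
    intro K₀ h0 _
    have h1 : (K₀.comap (K₁.subtype.comp e.toMonoidHom)).FiniteIndex := by
      refine ⟨?_⟩
      rw [Subgroup.index_comap]
      exact (inferInstance : (K₀.subgroupOf (K₁.subtype.comp e.toMonoidHom).range).FiniteIndex).index_ne_zero
    refine ⟨?_⟩
    rw [Subgroup.index_map_subtype]
    exact mul_ne_zero h1.index_ne_zero hG₁.index_ne_zero
  have hcore : K₁.normalCore.FiniteIndex := inferInstance
  have hle : K₁.normalCore ≤ K₁ := Subgroup.normalCore_le _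
  have hG₀ := hsub _ hcore hle
  have hmem : ∀ c, c2 c ∈ K₁.normalCore := by
    intro c
    obtain ⟨g, hg, hg2⟩ := ce_mem m _ hG₀ c.toAdd
    have h1 : g = c1 c := Subtype.ext hg2
    rw [h1] at hg
    exact hg
  refine ⟨c2.range, ⟨?_⟩, ?_, ?_, K₁, hK₁, ?_, hcent⟩
  · -- normality
    rintro _ ⟨c, rfl⟩ k
    have h1 : k * c2 c * k⁻¹ ∈ K₁.normalCore :=
      (inferInstance : K₁.normalCore.Normal).conj_mem _ (hmem c) k
    obtain ⟨g, hg⟩ := e.surjective ⟨k * c2 c * k⁻¹, hle h1⟩
    have hg' : (e g : K) = k * c2 c * k⁻¹ := congrArg Subtype.val hg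
    obtain ⟨d, hd⟩ := mem_of_comm m _ hG₀ g.1 (by
      rintro _ ⟨x, hx, rfl⟩
      have hx' : (e x : K) ∈ K₁.normalCore := hx
      have h2 : (e x : K) * (e g : K) = (e g : K) * (e x : K) := by
        rw [hg']
        have h3 : k⁻¹ * (e x : K) * k ∈ K₁.normalCore := by
          have := (inferInstance : K₁.normalCore.Normal).conj_mem _ hx' k⁻¹
          rwa [inv_inv] at this
        have h4 := hcent _ (hle h3) _ ⟨c, rfl⟩
        calc (e x : K) * (k * c2 c * k⁻¹) = k * ((k⁻¹ * (e x : K) * k) * c2 c) * k⁻¹ := by group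
          _ = k * (c2 c * (k⁻¹ * (e x : K) * k)) * k⁻¹ := by rw [h4]
          _ = _ := by group
      have h5 : e (x * g) = e (g * x) := by
        rw [map_mul, map_mul]
        exact Subtype.ext h2
      exact congrArg Subtype.val (e.injective h5))
    refine ⟨Multiplicative.ofAdd d, ?_⟩
    have h6 : c1 (Multiplicative.ofAdd d) = g := Subtype.ext hd.symm
    rw [hc2, h6, hg']
  · have : IsCyclic (Multiplicative (ZMod m)) := inferInstance
    exact isCyclic_of_surjective c2.rangeRestrict c2.rangeRestrict_surjective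
  · rw [← Nat.card_congr (MonoidHom.ofInjective hinj).toEquiv]
    rw [Nat.card_congr Multiplicative.toAdd, Nat.card_zmod]
  · have h1 : Infinite G₁ := by
      have := infinite_GE m
      by_contra hfin
      rw [not_infinite_iff_finite] at hfin
      have h2 := Subgroup.finite_quotient_of_finiteIndex (H := G₁)
      have h3 : Finite (GE m) := by
        have := Nat.card_pos (α := G₁)
        refine Nat.finite_of_card_ne_zero ?_
        rw [← Subgroup.card_mul_index G₁]
        exact mul_ne_zero Nat.card_pos.ne' hG₁.index_ne_zero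
      exact not_finite (GE m)
    exact Infinite.of_injective e e.injective

/-- no faithful quasiprimitive actions -/
theorem not_quasi {m : ℕ} (hm : 2 ≤ m) {K : Type u} [Group K] {C : Subgroup K} (hC : C.Normal)
    (hcard : Nat.card C = m) (hinf : Infinite K) (Ω : Type v) [MulAction K Ω]
    [FaithfulSMul K Ω] : ¬ MulAction.IsQuasiPreprimitive K Ω := by
  intro h
  have hfin : Finite C := Nat.finite_of_card_ne_zero (by omega)
  have hnt : Nontrivial C := by
    rw [← Finite.one_lt_card_iff_nontrivial, hcard]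
    omega
  obtain ⟨c, hc⟩ := exists_ne (1 : C)
  obtain ⟨ω, hω⟩ : ∃ ω : Ω, (c : K) • ω ≠ ω := by
    by_contra hcon
    push Not at hcon
    apply hc
    apply Subtype.ext
    exact FaithfulSMul.eq_of_smul_eq_smul (M := K) (α := Ω) fun ω => by
      rw [hcon ω]
      exact (one_smul K ω).symm
  have hfix : MulAction.fixedPoints C Ω ≠ ⊤ := by
    intro h0
    have h1 : ω ∈ MulAction.fixedPoints C Ω := by rw [h0]; trivial
    exact hω (h1 c)
  have htr := h.isPretransitive_of_normal (N := C) hfix
  have hΩ : Finite Ω := Finite.of_surjective (fun c : C => c • ω) fun ω' => htr.exists_smul_eq ω ω'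
  have hK : Finite K := Finite.of_injective (MulAction.toPermHom K Ω) MulAction.toPerm_injective
  exact not_finite K

end

end Pool.Agent.Y26.HT
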